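import Pool.Agent.Helper1_HAR.LIN

/-!
# Squad HAR, row COR: the small ball bound
-/

set_option autoImplicit false

namespace Pool.Agent.HAR.H1

open Finset Filter Topology Pool.Agent.HAR

noncomputable section

/-- the union of two settings of the bits -/
def mx {ι : Type} [DecidableEq ι] (D : Finset ι) (y : D → Bool) (x₀ : ι → Bool) : ι → Bool :=
  fun i => if h : i ∈ D then y ⟨i, h⟩ else x₀ i

theorem lf_congr {V ι : Type} [DecidableEq V] (c : Finset V → ι) (x x' : ι → Bool) (U : Finset V)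
    (u t0 : ℕ) (θ : ℕ → ℝ) (h : ∀ j, hh c x U j = hh c x' U j) :
    lf c x U u t0 θ = lf c x' U u t0 θ := by
  unfold lf
  exact sum_congr rfl fun r _ => by rw [h]

/-- the product of the cosines -/
theorem cos_prod (hCos : CosStmt) {L K : ℕ} (z : Fin L × Fin K → ℝ) {η : ℝ} (hη : 0 < η)
    (h : ∀ l, ∃ k, η ≤ nd (z (l, k))) :
    ∏ S, |Real.cos (Real.pi * z S)| ≤ Real.exp (-(2 * η ^ 2 * L)) := by
  have h1 : ∀ S, |Real.cos (Real.pi * z S)| ≤ 1 := fun S => Real.abs_cos_le_one _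
  rw [← univ_product_univ, prod_product]
  have h2 : ∀ l : Fin L, ∏ k : Fin K, |Real.cos (Real.pi * z (l, k))| ≤
      Real.exp (-(2 * η ^ 2)) := by
    intro l
    obtain ⟨k, hk⟩ := h l
    rw [← mul_prod_erase univ (fun k => |Real.cos (Real.pi * z (l, k))|) (Finset.mem_univ k)]
    have h3 : ∏ x ∈ univ.erase k, |Real.cos (Real.pi * z (l, x))| ≤ 1 :=
      prod_le_one (fun _ _ => abs_nonneg _) fun _ _ => h1 _
    have h4 : |Real.cos (Real.pi * z (l, k))| ≤ Real.exp (-(2 * η ^ 2)) := by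
      refine (hCos (z (l, k))).trans (Real.exp_le_exp.2 ?_)
      have : η ^ 2 ≤ nd (z (l, k)) ^ 2 := pow_le_pow_left₀ hη.le hk 2
      linarith
    calc |Real.cos (Real.pi * z (l, k))| * ∏ x ∈ univ.erase k, |Real.cos (Real.pi * z (l, x))| ≤
        Real.exp (-(2 * η ^ 2)) * 1 :=
          mul_le_mul h4 h3 (prod_nonneg fun _ _ => abs_nonneg _) (Real.exp_pos _).le
      _ = _ := mul_one _
  calc ∏ l : Fin L, ∏ k : Fin K, |Real.cos (Real.pi * z (l, k))| ≤
      ∏ _l : Fin L, Real.exp (-(2 * η ^ 2)) :=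
        prod_le_prod (fun _ _ => prod_nonneg fun _ _ => abs_nonneg _) fun l _ => h2 l
    _ = Real.exp (-(2 * η ^ 2 * L)) := by
        rw [prod_const, card_univ, Fintype.card_fin, ← Real.exp_nat_mul]
        congr 1
        ring

theorem cor (hBad : BadStmt) (hLin : LinStmt) (hFou : FouStmt) (hCos : CosStmt) (hCon : ConStmt)
    (hPrb : PrbStmt) : CorStmt := by
  intro V ι _ _ _ _ c c' v0 u t0 K L η M Q τ T hD
  have hbad := hBad V ι c c' v0 u t0 K L η M Q τ T hD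
  obtain ⟨pmono, por, -, pequiv, p01, -⟩ := hPrb
  obtain ⟨Bev, hBev⟩ : ∃ Bev : (ι → Bool) → Prop, Bev = fun x : ι → Bool =>
      ∃ θ : ℕ → ℕ, (∀ r ∈ Ico t0 u, θ r < Q r) ∧ (∃ r ∈ Ico t0 u, θ r ≠ 0) ∧
      ∃ l, ∀ i, nd (lf c x (τ l i) u t0 fun r => (θ r : ℝ) / Q r) < η := ⟨_, rfl⟩
  rw [← hBev] at hbad
  obtain ⟨P, hP⟩ : ∃ P : ℝ, P = ∏ r ∈ Ico t0 u, (Q r : ℝ) := ⟨_, rfl⟩
  have hQ1 : ∀ r ∈ Ico t0 u, (1 : ℝ) ≤ Q r := fun r hr => by
    have := (hD.Q1 r (Finset.mem_Ico.1 hr).1 (Finset.mem_Ico.1 hr).2).1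
    exact_mod_cast this
  have hP0 : 0 < P := by
    rw [hP]
    exact prod_pos fun r hr => lt_of_lt_of_le one_pos (hQ1 r hr)
  rw [← hP] at hbad ⊢
  have h1 : pr (fun x : ι → Bool => ∀ j, hh c x univ j = hh c' x univ j) ≤
      pr Bev + pr (fun x : ι → Bool => (∀ j, hh c x univ j = hh c' x univ j) ∧ ¬ Bev x) := by
    refine le_trans (pmono _ _ (fun x => Bev x ∨ ((∀ j, hh c x univ j = hh c' x univ j) ∧
      ¬ Bev x)) fun x hx => ?_) (por _ _ _)
    by_cases hb : Bev x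
    · exact Or.inl hb
    · exact Or.inr ⟨hx, hb⟩
  suffices h2 : pr (fun x : ι → Bool => (∀ j, hh c x univ j = hh c' x univ j) ∧ ¬ Bev x) ≤
      P⁻¹ + Real.exp (-(2 * η ^ 2 * L)) by linarith
  -- the fresh classes
  obtain ⟨D, hDdef⟩ : ∃ D : Finset ι, D =
      (univ : Finset (Fin L × Fin K)).image (fun p : Fin L × Fin K => c (univ \ τ p.1 p.2)) := ⟨_, rfl⟩
  have hmemD : ∀ l k, c (univ \ τ l k) ∈ D := fun l k => by
    rw [hDdef]
    exact Finset.mem_image.2 ⟨(l, k), Finset.mem_univ _, rfl⟩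
  apply hCon ι D
  intro x₀
  change pr (fun y : D → Bool => (∀ j, hh c (mx D y x₀) univ j = hh c' (mx D y x₀) univ j) ∧
    ¬ Bev (mx D y x₀)) ≤ _
  obtain ⟨xf, hxf⟩ : ∃ xf : ι → Bool, xf = mx D (fun _ => false) x₀ := ⟨_, rfl⟩
  have hout : ∀ y : D → Bool, ∀ i, (∀ l k, i ≠ c (univ \ τ l k)) → mx D y x₀ i = xf i := by
    intro y i hi
    have h3 : i ∉ D := by
      rw [hDdef]
      intro h
      obtain ⟨p, -, hp⟩ := Finset.mem_image.1 h
      exact hi p.1 p.2 hp.symm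
    rw [hxf]
    unfold mx
    rw [dif_neg h3, dif_neg h3]
  have hlin := fun y : D → Bool => hLin V ι c c' v0 u t0 K L η M Q τ T hD (mx D y x₀) xf (hout y)
  have hBiff : ∀ y : D → Bool, Bev (mx D y x₀) ↔ Bev xf := by
    intro y
    have h3 : ∀ l i (θ : ℕ → ℝ), lf c (mx D y x₀) (τ l i) u t0 θ = lf c xf (τ l i) u t0 θ :=
      fun l i θ => lf_congr c _ _ _ _ _ _ ((hlin y).1 l i)
    rw [hBev]
    simp only [h3]
  have hexp0 : 0 ≤ P⁻¹ + Real.exp (-(2 * η ^ 2 * L)) :=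
    add_nonneg (inv_nonneg.2 hP0.le) (Real.exp_pos _).le
  by_cases hB : Bev xf
  · -- the event is empty
    have h3 : pr (fun y : D → Bool => (∀ j, hh c (mx D y x₀) univ j = hh c' (mx D y x₀) univ j) ∧
        ¬ Bev (mx D y x₀)) = 0 := by
      unfold pr
      have h4 : Nat.card {y : D → Bool // (∀ j, hh c (mx D y x₀) univ j =
          hh c' (mx D y x₀) univ j) ∧ ¬ Bev (mx D y x₀)} = 0 := by
        rw [Nat.card_eq_zero]
        left
        exact ⟨fun y => y.2.2 ((hBiff y.1).2 hB)⟩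
      rw [h4, Nat.cast_zero, zero_div]
    rw [h3]
    exact hexp0
  -- the data for the Fourier analysis
  obtain ⟨v, hv⟩ : ∃ v : Fin L × Fin K → ↥(Ico t0 u) → ℤ,
      v = fun (p : Fin L × Fin K) (r : ↥(Ico t0 u)) =>
        (hh c xf (τ p.1 p.2) (u + 1 - (r : ℕ)) : ℤ) := ⟨_, rfl⟩
  obtain ⟨yy, hyy⟩ : ∃ yy : ↥(Ico t0 u) → ℤ, yy = fun r : ↥(Ico t0 u) =>
      (hh c' xf univ (u + 1 - (r : ℕ) + 1) : ℤ) - hh c xf univ (u + 1 - (r : ℕ) + 1) := ⟨_, rfl⟩
  have hfou := hFou (Fin L × Fin K) (↥(Ico t0 u)) (fun r => Q (r : ℕ)) v yy (fun r => by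
    have := (hD.Q1 r (Finset.mem_Ico.1 r.2).1 (Finset.mem_Ico.1 r.2).2).1
    omega)
  -- the bijection
  have hbij : Function.Bijective
      (fun p : Fin L × Fin K => (⟨c (univ \ τ p.1 p.2), hmemD p.1 p.2⟩ : D)) := by
    constructor
    · rintro ⟨l, k⟩ ⟨l', k'⟩ h
      have h3 : c (univ \ τ l k) = c (univ \ τ l' k') := congrArg Subtype.val h
      have h4 := hD.uq l' k' _ h3
      have h5 : τ l k = τ l' k' := by
        have a1 : univ \ (univ \ τ l k) = τ l k := by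
          rw [sdiff_sdiff_right_self]
          exact inf_eq_right.2 (subset_univ _)
        have a2 : univ \ (univ \ τ l' k') = τ l' k' := by
          rw [sdiff_sdiff_right_self]
          exact inf_eq_right.2 (subset_univ _)
        rw [← a1, ← a2, h4]
      obtain ⟨h6, h7⟩ := hD.inj l k l' k' h5
      rw [h6, h7]
    · rintro ⟨i, hi⟩
      have h3 := hi
      rw [hDdef] at h3
      obtain ⟨p, -, hp⟩ := Finset.mem_image.1 h3
      exact ⟨p, Subtype.ext hp⟩
  have hfalse : ∀ l k, xf (c (univ \ τ l k)) = false := by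
    intro l k
    rw [hxf]
    unfold mx
    rw [dif_pos (hmemD l k)]
  have hstep : pr (fun y : D → Bool => (∀ j, hh c (mx D y x₀) univ j =
        hh c' (mx D y x₀) univ j) ∧ ¬ Bev (mx D y x₀)) ≤
      pr (fun x : Fin L × Fin K → Bool => ∀ r, ∑ S, (if x S = true then v S r else 0) = yy r) := by
    have e := pequiv (D → Bool) (Fin L × Fin K → Bool)
      (Equiv.arrowCongr (Equiv.ofBijective _ hbij).symm (Equiv.refl Bool))
      (fun x => ∀ r, ∑ S, (if x S = true then v S r else 0) = yy r)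
    rw [← e]
    apply pmono
    rintro y ⟨hy, -⟩ r
    obtain ⟨-, l2, l3⟩ := hlin y
    have h3 := l3 (u + 1 - (r : ℕ))
    rw [hy (u + 1 - (r : ℕ) + 1), l2] at h3
    have h4 : ∑ l, ∑ k, (if xf (c (univ \ τ l k)) = true then
      (hh c xf (τ l k) (u + 1 - (r : ℕ)) : ℤ) else 0) = 0 := by
      apply sum_eq_zero
      intro l _
      apply sum_eq_zero
      intro k _
      rw [hfalse l k]
      simp
    rw [h4, sub_zero] at h3
    have h5 : ∑ S : Fin L × Fin K, (if (Equiv.arrowCongr (Equiv.ofBijective _ hbij).symm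
        (Equiv.refl Bool)) y S = true then v S r else 0) =
        ∑ l, ∑ k, (if mx D y x₀ (c (univ \ τ l k)) = true then
      (hh c xf (τ l k) (u + 1 - (r : ℕ)) : ℤ) else 0) := by
      rw [← univ_product_univ, sum_product]
      refine sum_congr rfl fun l _ => sum_congr rfl fun k _ => ?_
      have h6 : mx D y x₀ (c (univ \ τ l k)) = y ⟨c (univ \ τ l k), hmemD l k⟩ := by
        unfold mx
        rw [dif_pos (hmemD l k)]
      rw [h6, hv]
      rfl
    rw [h5, hyy]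
    linarith
  refine hstep.trans (hfou.trans ?_)
  -- the sum over the frequencies
  have hQprod : (∏ r : ↥(Ico t0 u), ((Q (r : ℕ) : ℕ) : ℝ)) = P := by
    rw [hP]
    exact prod_coe_sort (Ico t0 u) (fun r => (Q r : ℝ))
  rw [hQprod]
  have hpos : ∀ r : ↥(Ico t0 u), 0 < Q (r : ℕ) := fun r => by
    have := (hD.Q1 r (Finset.mem_Ico.1 r.2).1 (Finset.mem_Ico.1 r.2).2).1
    omega
  have hterm : ∀ θ : (∀ r : ↥(Ico t0 u), Fin (Q (r : ℕ))),
      ∏ S, |Real.cos (Real.pi * ∑ j, ((θ j : ℕ) : ℝ) * v S j / Q j)| ≤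
        (if θ = fun r => ⟨0, hpos r⟩ then 1 else 0) + Real.exp (-(2 * η ^ 2 * L)) := by
    intro θ
    by_cases hθ : θ = fun r => ⟨0, hpos r⟩
    · rw [if_pos hθ]
      have : ∏ S, |Real.cos (Real.pi * ∑ j, ((θ j : ℕ) : ℝ) * v S j / Q j)| ≤ 1 :=
        prod_le_one (fun _ _ => abs_nonneg _) fun _ _ => Real.abs_cos_le_one _
      have h0 := (Real.exp_pos (-(2 * η ^ 2 * L))).le
      linarith
    · rw [if_neg hθ, zero_add]
      obtain ⟨r₀, hr₀⟩ : ∃ r : ↥(Ico t0 u), (θ r).val ≠ 0 := by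
        by_contra hcon
        push Not at hcon
        apply hθ
        funext r
        exact Fin.ext (hcon r)
      obtain ⟨θ', hθ'⟩ : ∃ θ' : ℕ → ℕ, θ' = fun r => if h : r ∈ Ico t0 u then
        (θ ⟨r, h⟩).val else 0 := ⟨_, rfl⟩
      have hθ1 : ∀ r : ↥(Ico t0 u), θ' (r : ℕ) = (θ r).val := by
        intro r
        rw [hθ']
        simp only
        rw [dif_pos r.2]
      apply cos_prod hCos _ hD.eta.1
      intro l
      by_contra hcon
      push Not at hcon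
      apply hB
      rw [hBev]
      refine ⟨θ', ?_, ⟨r₀, r₀.2, ?_⟩, l, ?_⟩
      · intro r hr
        have := hθ1 ⟨r, hr⟩
        rw [show θ' r = (θ ⟨r, hr⟩).val from this]
        exact (θ ⟨r, hr⟩).2
      · rw [hθ1 r₀]
        exact hr₀
      · intro k
        have h3 := hcon k
        have h4 : lf c xf (τ l k) u t0 (fun r => (θ' r : ℝ) / Q r) =
            ∑ j : ↥(Ico t0 u), ((θ j : ℕ) : ℝ) * v (l, k) j / Q j := by
          unfold lf
          rw [← sum_coe_sort (Ico t0 u)]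
          refine sum_congr rfl fun r _ => ?_
          change (θ' (r : ℕ) : ℝ) / Q r * (hh c xf (τ l k) (u + 1 - (r : ℕ)) : ℝ) = _
          rw [hθ1 r, hv]
          push_cast
          ring
        rw [h4]
        exact h3
  have hsum : ∑ θ : (∀ r : ↥(Ico t0 u), Fin (Q (r : ℕ))),
      ∏ S, |Real.cos (Real.pi * ∑ j, ((θ j : ℕ) : ℝ) * v S j / Q j)| ≤
        1 + P * Real.exp (-(2 * η ^ 2 * L)) := by
    refine (sum_le_sum fun θ _ => hterm θ).trans ?_
    rw [sum_add_distrib, sum_ite_eq' univ, if_pos (Finset.mem_univ _), sum_const, nsmul_eq_mul]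
    apply le_of_eq
    congr 2
    rw [card_univ, Fintype.card_pi]
    push_cast
    rw [← hQprod]
    exact prod_congr rfl fun r _ => by rw [Fintype.card_fin]
  calc P⁻¹ * ∑ θ : (∀ r : ↥(Ico t0 u), Fin (Q (r : ℕ))),
      ∏ S, |Real.cos (Real.pi * ∑ j, ((θ j : ℕ) : ℝ) * v S j / Q j)| ≤
        P⁻¹ * (1 + P * Real.exp (-(2 * η ^ 2 * L))) :=
          mul_le_mul_of_nonneg_left hsum (inv_nonneg.2 hP0.le)
    _ = P⁻¹ + Real.exp (-(2 * η ^ 2 * L)) := by
        field_simp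

end

end Pool.Agent.HAR.H1
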