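import Pool.Agent.HAR.Stmts

/-!
# Squad HAR, row LIN: the equations for the fresh bits
-/

set_option autoImplicit false

namespace Pool.Agent.HAR.H1

open Finset Filter Topology Pool.Agent.HAR

noncomputable section

/-- the number of partitions depends only on the classes of the subsets -/
theorem hh_congr {V ι : Type} [DecidableEq V] (c : Finset V → ι) (x x' : ι → Bool) (U : Finset V)
    (h : ∀ B, B ⊆ U → x (c B) = x' (c B)) (j : ℕ) : hh c x U j = hh c x' U j := by
  unfold hh
  apply Nat.card_congr
  apply Equiv.subtypeEquivRight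
  intro π
  have h1 : ∀ B ∈ π.parts, x (c B) = x' (c B) := fun B hB => h B (π.le hB)
  constructor
  · rintro ⟨h2, h3⟩
    exact ⟨h2, fun B hB => by rw [← h1 B hB]; exact h3 B hB⟩
  · rintro ⟨h2, h3⟩
    exact ⟨h2, fun B hB => by rw [h1 B hB]; exact h3 B hB⟩

theorem lin (hRec : RecStmt) : LinStmt := by
  intro V ι _ _ _ _ c c' v0 u t0 K L η M Q τ T D x x' hx
  -- blocks which do not contain `v0`
  have hblk : ∀ B : Finset V, v0 ∉ B → x (c B) = x' (c B) := by
    intro B hB
    apply hx
    intro l k h
    have h1 := D.uq l k B h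
    apply hB
    rw [h1, Finset.mem_sdiff]
    exact ⟨Finset.mem_univ _, D.nmem l k⟩
  have hU : ∀ U : Finset V, v0 ∉ U → ∀ j, hh c x U j = hh c x' U j := fun U hU j =>
    hh_congr c x x' U (fun B hB => hblk B fun h => hU (hB h)) j
  refine ⟨fun l k j => hU _ (D.nmem l k) j, fun j => ?_, fun j => ?_⟩
  · apply hh_congr
    intro B _
    exact hx _ fun l k => D.fr l k B
  -- the main part
  have key : ∀ y : ι → Bool, (∀ i, (∀ l k, i ≠ c (univ \ τ l k)) → y i = x' i) →
      (hh c y univ (j + 1) : ℤ) - ∑ l, ∑ k, (if y (c (univ \ τ l k)) = true then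
      (hh c x' (τ l k) j : ℤ) else 0) =
      ∑ S ∈ (univ.powerset.filter fun S => v0 ∈ S).filter
        (fun S => ∀ l k, S ≠ univ \ τ l k),
        (if S.card = 1 ∨ x' (c S) = true then (hh c x' (univ \ S) j : ℤ) else 0) := by
    intro y hy
    have hyU : ∀ U : Finset V, v0 ∉ U → ∀ j, hh c y U j = hh c x' U j := by
      intro U hU j
      apply hh_congr
      intro B hB
      apply hy
      intro l k h
      have h1 := D.uq l k B h
      apply hU
      apply hB
      rw [h1, Finset.mem_sdiff]
      exact ⟨Finset.mem_univ _, D.nmem l k⟩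
    rw [hRec V ι c y univ v0 (Finset.mem_univ v0) j]
    push_cast
    have e1 : ∑ S ∈ (univ : Finset V).powerset.filter
        (fun S => v0 ∈ S ∧ (S.card = 1 ∨ y (c S) = true)), (hh c y (univ \ S) j : ℤ) =
        ∑ S ∈ (univ : Finset V).powerset.filter (fun S => v0 ∈ S),
          (if S.card = 1 ∨ y (c S) = true then (hh c x' (univ \ S) j : ℤ) else 0) := by
      rw [← filter_filter, sum_filter]
      refine sum_congr rfl fun S hS => ?_
      have hv : v0 ∈ S := (Finset.mem_filter.1 hS).2
      rw [hyU (univ \ S) (fun h => (Finset.mem_sdiff.1 h).2 hv) j]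
    rw [e1, ← sum_filter_add_sum_filter_not ((univ : Finset V).powerset.filter (fun S => v0 ∈ S))
      (fun S => ∀ l k, S ≠ univ \ τ l k)]
    have e2 : ∑ S ∈ (univ.powerset.filter fun S => v0 ∈ S).filter
        (fun S => ∀ l k, S ≠ univ \ τ l k),
        (if S.card = 1 ∨ y (c S) = true then (hh c x' (univ \ S) j : ℤ) else 0) =
        ∑ S ∈ (univ.powerset.filter fun S => v0 ∈ S).filter
        (fun S => ∀ l k, S ≠ univ \ τ l k),
        (if S.card = 1 ∨ x' (c S) = true then (hh c x' (univ \ S) j : ℤ) else 0) := by
      refine sum_congr rfl fun S hS => ?_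
      have h1 := (Finset.mem_filter.1 hS).2
      have h2 : y (c S) = x' (c S) := hy _ fun l k h => h1 l k (D.uq l k S h)
      rw [h2]
    have e3 : ∑ S ∈ (univ.powerset.filter fun S => v0 ∈ S).filter
        (fun S => ¬ ∀ l k, S ≠ univ \ τ l k),
        (if S.card = 1 ∨ y (c S) = true then (hh c x' (univ \ S) j : ℤ) else 0) =
        ∑ l, ∑ k, (if y (c (univ \ τ l k)) = true then (hh c x' (τ l k) j : ℤ) else 0) := by
      have e4 : (univ.powerset.filter fun S => v0 ∈ S).filter
          (fun S => ¬ ∀ l k, S ≠ univ \ τ l k) =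
          (univ : Finset (Fin L × Fin K)).image (fun p => univ \ τ p.1 p.2) := by
        ext S
        simp only [Finset.mem_filter, mem_powerset, Finset.mem_image, Finset.mem_univ, true_and]
        constructor
        · rintro ⟨-, h⟩
          push Not at h
          obtain ⟨l, k, h⟩ := h
          exact ⟨(l, k), h.symm⟩
        · rintro ⟨⟨l, k⟩, rfl⟩
          refine ⟨⟨subset_univ _, Finset.mem_sdiff.2 ⟨Finset.mem_univ _, D.nmem l k⟩⟩, fun h => h l k rfl⟩
      rw [e4, sum_image]
      · rw [← univ_product_univ, sum_product]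
        refine sum_congr rfl fun l _ => sum_congr rfl fun k _ => ?_
        have hcard : (univ \ τ l k).card ≠ 1 := by
          rw [card_sdiff_of_subset (subset_univ _), card_univ, D.card l k]
          have := D.u_le
          omega
        have hcompl : univ \ (univ \ τ l k) = τ l k := by
          rw [sdiff_sdiff_right_self]
          exact inf_eq_right.2 (subset_univ _)
        simp only [hcard, false_or, hcompl]
      · rintro ⟨l, k⟩ - ⟨l', k'⟩ - h
        have h1 : univ \ τ l k = univ \ τ l' k' := h
        have h2 : τ l k = τ l' k' := by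
          have a1 : univ \ (univ \ τ l k) = τ l k := by
            rw [sdiff_sdiff_right_self]
            exact inf_eq_right.2 (subset_univ _)
          have a2 : univ \ (univ \ τ l' k') = τ l' k' := by
            rw [sdiff_sdiff_right_self]
            exact inf_eq_right.2 (subset_univ _)
          rw [← a1, ← a2, h1]
        obtain ⟨h3, h4⟩ := D.inj l k l' k' h2
        rw [h3, h4]
    rw [e2, e3, add_sub_cancel_right]
  rw [key x hx, key x' fun i _ => rfl]

end

end Pool.Agent.HAR.H1
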